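import Pool.Agent.Q301.TM.FinM

/-!
# A Tychonoff space that is not realcompact and whose real `z`-ultrafilters are fixed

If there is a model of ZF, then there is a model of ZF with a Tychonoff space `x` such that every
`z`-ultrafilter on `x` with the countable intersection property is fixed, and `x` is not
realcompact.
-/

namespace Pool.Agent.Results.MP_05264e_lc.FixedNotRealcompact

open FirstOrder FirstOrder.Language
open Pool.Agent.Helper672.Plain (LSet Mem El)
open Pool.Agent.H635Amen (ZF IsReals)
open Pool.Agent.H310Top (IsTopology)
open Pool.Agent.Q301.TM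

universe u

theorem result (h : ∃ (M : Type u) (_ : LSet.Structure M), ZF M) :
    ∃ (N : Type u) (_ : LSet.Structure N), ZF N ∧
      ∃ (r : N) (_ : Field (El r)) (_ : LinearOrder (El r)) (_ : IsStrictOrderedRing (El r)),
        IsReals r ∧ ∃ t x : N, IsTychonoff t x r ∧
          (∀ F, IsUltraIn (IsZeroSet t x r) F → IsCIP F → IsFixed x F) ∧
          ¬ IsRealcompact t x r := by
  exact Pool.Agent.Q301.TM.p05264e h

end Pool.Agent.Results.MP_05264e_lc.FixedNotRealcompact
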